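import Pool.Agent.Helper54.S4.Stmts

set_option autoImplicit false

namespace Pool.Agent.Helper54.S4

open Finset Pool.Agent.Helper54.SP

/-- the relation of a gate after the projective change of coordinates -/
theorem val4_rel (M Y0 Y1 Y2 Y3 Y4 : ℝ) (h0 : M + Y0 ≠ 0) (h1 : M + Y1 ≠ 0) (h2 : M + Y2 ≠ 0)
    (h3 : M + Y3 ≠ 0) (h4 : M + Y4 ≠ 0) (h : (Y2 - Y0) * (Y3 - Y2) = (Y2 - Y1) * (Y4 - Y2))
    (y : ℕ → ℝ) (e0 : y 0 = M * Y0 / (M + Y0)) (e1 : y 1 = M * Y1 / (M + Y1))
    (e2 : y 2 = M * Y2 / (M + Y2)) (e3 : y 3 = M * Y3 / (M + Y3))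
    (e4 : y 4 = M * Y4 / (M + Y4)) (e5 : y 5 = M) : FF y = FG y := by
  have k : ∀ A B : ℝ, M + A ≠ 0 → M + B ≠ 0 →
      M * A / (M + A) - M * B / (M + B) = M ^ 2 * (A - B) * (M + A)⁻¹ * (M + B)⁻¹ := by
    intro A B hA hB
    field_simp
    ring
  have k5 : ∀ A : ℝ, M + A ≠ 0 → M - M * A / (M + A) = M ^ 2 * (M + A)⁻¹ := by
    intro A hA
    field_simp
    ring
  have a1 : FF y = (M ^ 8 * (M + Y0)⁻¹ * (M + Y1)⁻¹ * (M + Y2)⁻¹ * (M + Y2)⁻¹ * (M + Y3)⁻¹ *
      (M + Y4)⁻¹) * ((Y2 - Y0) * (Y3 - Y2)) := by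
    unfold FF
    rw [e0, e1, e2, e3, e4, e5, k _ _ h2 h0, k _ _ h3 h2, k5 _ h1, k5 _ h4]
    ring
  have a2 : FG y = (M ^ 8 * (M + Y0)⁻¹ * (M + Y1)⁻¹ * (M + Y2)⁻¹ * (M + Y2)⁻¹ * (M + Y3)⁻¹ *
      (M + Y4)⁻¹) * ((Y2 - Y1) * (Y4 - Y2)) := by
    unfold FG
    rw [e0, e1, e2, e3, e4, e5, k _ _ h2 h1, k _ _ h4 h2, k5 _ h0, k5 _ h3]
    ring
  rw [a1, a2, h]

theorem val4_mono (M A B : ℝ) (hM : 0 < M) (hA : 0 < M + A) (hAB : A < B) :
    M * A / (M + A) < M * B / (M + B) := by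
  have hB : 0 < M + B := by linarith
  rw [div_lt_div_iff₀ hA hB]
  have := mul_pos (mul_pos hM hM) (sub_pos.2 hAB)
  nlinarith

theorem val4_top (M A : ℝ) (hM : 0 < M) (hA : 0 < M + A) : M * A / (M + A) < M := by
  rw [div_lt_iff₀ hA]
  nlinarith [mul_pos hM hM]

theorem val4_est (n c p q : ℝ) (hn : n ≤ -1) (hc : c = 0 ∨ c = 1) (hp : 2 < p) (hpq : p < q)
    (hq : q < 2 + 1 / 100) :
    c - (c - n) * ((q - c) / (p - c)) < n ∧ 102 / 100 * n < c - (c - n) * ((q - c) / (p - c)) := by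
  have hc0 : 0 ≤ c := by rcases hc with h | h <;> linarith
  have hc1 : c ≤ 1 := by rcases hc with h | h <;> linarith
  have hpc : 0 < p - c := by linarith
  have r1 : 1 < (q - c) / (p - c) := (one_lt_div hpc).2 (by linarith)
  have r2 : (q - c) / (p - c) < 101 / 100 := (div_lt_iff₀ hpc).2 (by linarith)
  have hcn : 0 < c - n := by linarith
  have t1 := mul_pos hcn (sub_pos.2 r1)
  have t2 := mul_pos hcn (sub_pos.2 r2)
  constructor
  · nlinarith
  · nlinarith

noncomputable def val4_n (K s : ℕ) : ℝ := -(11 / 10 : ℝ) ^ (K - s)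

def val4_g (Γ : List Gt) (s : ℕ) : Gt := Γ.getD s (false, 0, 0, 0, 0, 0)

noncomputable def val4_m (Γ : List Gt) (v : ℕ → ℝ) (s : ℕ) : ℝ :=
  cen (val4_g Γ s).k - (cen (val4_g Γ s).k - val4_n Γ.length s) *
    ((v (val4_g Γ s).u' - cen (val4_g Γ s).k) / (v (val4_g Γ s).u - cen (val4_g Γ s).k))

noncomputable def val4_Y (Γ : List Gt) (v : ℕ → ℝ) (z : ℕ) : ℝ :=
  if z < 2 * Γ.length then (if z % 2 = 0 then val4_m Γ v (z / 2) else val4_n Γ.length (z / 2))
  else if z = 2 * Γ.length then 0 else if z = 2 * Γ.length + 1 then 1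
  else v (z - (2 * Γ.length + 2))

theorem val4_mem {Γ : List Gt} {s : ℕ} (hs : s < Γ.length) : val4_g Γ s ∈ Γ := by
  unfold val4_g
  rw [List.getD_eq_getElem _ _ hs]
  exact List.getElem_mem hs

theorem val4_cen (b : Bool) : cen b = 0 ∨ cen b = 1 := by
  cases b <;> simp [cen]

theorem val4_n_le (K s : ℕ) : val4_n K s ≤ -1 := by
  unfold val4_n
  have := one_le_pow₀ (M₀ := ℝ) (a := 11 / 10) (by norm_num) (n := K - s)
  linarith

theorem val4_bd {Γ : List Gt} {nw : ℕ} {v : ℕ → ℝ} (hw : WF Γ nw) (hv : Nice Γ nw v) {s : ℕ}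
    (hs : s < Γ.length) : val4_m Γ v s < val4_n Γ.length s ∧
      102 / 100 * val4_n Γ.length s < val4_m Γ v s := by
  obtain ⟨h1, -, h3, h4, -⟩ := hw.wires _ (val4_mem hs)
  exact val4_est _ _ _ _ (val4_n_le _ _) (val4_cen _) (hv.2.1 _ (h1.trans h3)).1
    (hv.2.2.1 _ _ h1 h3) (hv.2.1 _ h3).2

theorem val4_n_succ {K s : ℕ} (hs : s < K) : val4_n K s = 11 / 10 * val4_n K (s + 1) := by
  unfold val4_n
  rw [show K - s = (K - (s + 1)) + 1 by omega, pow_succ]
  ring

theorem val4_Y_even {Γ : List Gt} {v : ℕ → ℝ} {s : ℕ} (hs : s < Γ.length) :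
    val4_Y Γ v (2 * s) = val4_m Γ v s := by
  unfold val4_Y
  rw [if_pos (by omega), if_pos (by omega), show 2 * s / 2 = s by omega]

theorem val4_Y_odd {Γ : List Gt} {v : ℕ → ℝ} {s : ℕ} (hs : s < Γ.length) :
    val4_Y Γ v (2 * s + 1) = val4_n Γ.length s := by
  unfold val4_Y
  rw [if_pos (by omega), if_neg (by omega), show (2 * s + 1) / 2 = s by omega]

theorem val4_Y_0 (Γ : List Gt) (v : ℕ → ℝ) : val4_Y Γ v (2 * Γ.length) = 0 := by
  unfold val4_Y
  rw [if_neg (by omega), if_pos rfl]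

theorem val4_Y_1 (Γ : List Gt) (v : ℕ → ℝ) : val4_Y Γ v (2 * Γ.length + 1) = 1 := by
  unfold val4_Y
  rw [if_neg (by omega), if_neg (by omega), if_pos rfl]

theorem val4_Y_v (Γ : List Gt) (v : ℕ → ℝ) (i : ℕ) : val4_Y Γ v (2 * Γ.length + 2 + i) = v i := by
  unfold val4_Y
  rw [if_neg (by omega), if_neg (by omega), if_neg (by omega)]
  congr 1
  omega

theorem val4_Y_c (Γ : List Gt) (v : ℕ → ℝ) (b : Bool) :
    val4_Y Γ v (2 * Γ.length + (if b then 1 else 0)) = cen b := by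
  cases b
  · simpa [cen] using val4_Y_0 Γ v
  · simpa [cen] using val4_Y_1 Γ v

theorem val4_step {Γ : List Gt} {nw : ℕ} {v : ℕ → ℝ} (hw : WF Γ nw) (hv : Nice Γ nw v) {z : ℕ}
    (hz : z + 1 < 2 * Γ.length + 2 + nw) : val4_Y Γ v z < val4_Y Γ v (z + 1) := by
  by_cases h1 : z + 1 < 2 * Γ.length
  · rcases Nat.even_or_odd' z with ⟨s, hs | hs⟩
    · have hs' : s < Γ.length := by omega
      rw [hs, val4_Y_even hs', val4_Y_odd hs']
      exact (val4_bd hw hv hs').1
    · have hs' : s + 1 < Γ.length := by omega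
      rw [hs, val4_Y_odd (by omega), show 2 * s + 1 + 1 = 2 * (s + 1) by ring, val4_Y_even hs',
        val4_n_succ (show s < Γ.length by omega)]
      have h2 := (val4_bd hw hv hs').2
      have h3 := val4_n_le Γ.length (s + 1)
      linarith
  · by_cases h2 : z + 1 = 2 * Γ.length
    · rcases Nat.even_or_odd' z with ⟨s, hs | hs⟩
      · omega
      · rw [h2, val4_Y_0, hs, val4_Y_odd (by omega)]
        have h3 := val4_n_le Γ.length s
        linarith
    · by_cases h3 : z = 2 * Γ.length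
      · rw [h3, val4_Y_0, val4_Y_1]
        exact one_pos
      · by_cases h4 : z = 2 * Γ.length + 1
        · rw [h4, val4_Y_1, show 2 * Γ.length + 1 + 1 = 2 * Γ.length + 2 + 0 by ring, val4_Y_v]
          have := (hv.2.1 0 (by omega)).1
          linarith
        · obtain ⟨i, rfl⟩ : ∃ i, z = 2 * Γ.length + 2 + i := ⟨z - (2 * Γ.length + 2), by omega⟩
          rw [show 2 * Γ.length + 2 + i + 1 = 2 * Γ.length + 2 + (i + 1) by ring, val4_Y_v,
            val4_Y_v]
          exact hv.2.2.1 _ _ (by omega) (by omega)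

theorem val4_lt {Γ : List Gt} {nw : ℕ} {v : ℕ → ℝ} (hw : WF Γ nw) (hv : Nice Γ nw v) (z : ℕ) :
    ∀ d, z + d + 1 < 2 * Γ.length + 2 + nw → val4_Y Γ v z < val4_Y Γ v (z + d + 1) := by
  intro d
  induction d with
  | zero => intro h; exact val4_step hw hv h
  | succ d ih =>
    intro h
    exact (ih (by omega)).trans (val4_step hw hv h)

theorem val4_low {Γ : List Gt} {nw : ℕ} {v : ℕ → ℝ} (hw : WF Γ nw) (hv : Nice Γ nw v) {z : ℕ}
    (hz : z < 2 * Γ.length + 2 + nw) : 0 < (11 / 10 : ℝ) ^ (Γ.length + 1) + val4_Y Γ v z := by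
  have h0 : 0 < (11 / 10 : ℝ) ^ (Γ.length + 1) + val4_Y Γ v 0 := by
    have hpos : 0 < (11 / 10 : ℝ) ^ Γ.length := by positivity
    rw [pow_succ]
    by_cases hK : Γ.length = 0
    · have h1 := val4_Y_0 Γ v
      rw [hK] at h1 ⊢
      rw [show 2 * 0 = 0 by rfl] at h1
      rw [h1]
      norm_num
    · have h1 : 0 < Γ.length := Nat.pos_of_ne_zero hK
      have h2 := val4_Y_even (v := v) h1
      rw [show 2 * 0 = 0 by rfl] at h2
      rw [h2]
      have h3 := (val4_bd hw hv h1).2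
      have h4 : val4_n Γ.length 0 = -(11 / 10 : ℝ) ^ Γ.length := rfl
      rw [h4] at h3
      linarith
  rcases Nat.eq_zero_or_pos z with rfl | hz0
  · exact h0
  · have h1 := val4_lt hw hv 0 (z - 1) (by omega)
    rw [show 0 + (z - 1) + 1 = z by omega] at h1
    linarith

theorem st_VAL4 (_ : ST_WI4) : ST_VAL4 := by
  intro Γ nw v hw hv
  have hM : 0 < (11 / 10 : ℝ) ^ (Γ.length + 1) := by positivity
  generalize hMd : (11 / 10 : ℝ) ^ (Γ.length + 1) = M at hM
  have hlow : ∀ z, z < 2 * Γ.length + 2 + nw → 0 < M + val4_Y Γ v z := by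
    intro z hz
    rw [← hMd]
    exact val4_low hw hv hz
  refine ⟨fun z => if z < 2 * Γ.length + 2 + nw then
    M * val4_Y Γ v z / (M + val4_Y Γ v z) else M, ?_, ?_⟩
  · intro z z' hzz hz'
    have hz : z < 2 * Γ.length + 2 + nw := by omega
    simp only [if_pos hz]
    by_cases h1 : z' < 2 * Γ.length + 2 + nw
    · simp only [if_pos h1]
      refine val4_mono _ _ _ hM (hlow z hz) ?_
      have h2 := val4_lt hw hv z (z' - z - 1) (by omega)
      rwa [show z + (z' - z - 1) + 1 = z' by omega] at h2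
    · simp only [if_neg h1]
      exact val4_top _ _ hM (hlow z hz)
  · intro j hj
    have hs : j / 4 < Γ.length := by omega
    have hga : ga Γ j = val4_g Γ (j / 4) := rfl
    obtain ⟨w1, w2, w3, w4, -⟩ := hw.wires _ (val4_mem hs)
    have e2 := hv.1 _ (val4_mem hs)
    have hY0 := val4_Y_even (v := v) hs
    have hY1 := val4_Y_odd (v := v) hs
    have hY2 := val4_Y_c Γ v (val4_g Γ (j / 4)).k
    have hc2 : (2 * Γ.length + if (val4_g Γ (j / 4)).k = true then 1 else 0) <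
        2 * Γ.length + 2 + nw := by
      split_ifs <;> omega
    have hp : v (val4_g Γ (j / 4)).u - cen (val4_g Γ (j / 4)).k ≠ 0 := by
      have h1 := (hv.2.1 _ (w1.trans w3)).1
      rcases val4_cen (val4_g Γ (j / 4)).k with h | h <;> rw [h] <;> intro h5 <;> linarith
    by_cases hpart : j % 4 < 2
    · refine val4_rel M (val4_m Γ v (j / 4)) (val4_n Γ.length (j / 4))
        (cen (val4_g Γ (j / 4)).k) (v (val4_g Γ (j / 4)).u) (v (val4_g Γ (j / 4)).u')
        ?_ ?_ ?_ ?_ ?_ ?_ _ ?_ ?_ ?_ ?_ ?_ ?_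
      · rw [← hY0]; exact (hlow _ (by omega)).ne'
      · rw [← hY1]; exact (hlow _ (by omega)).ne'
      · rw [← hY2]; exact (hlow _ hc2).ne'
      · rw [← val4_Y_v Γ v (val4_g Γ (j / 4)).u]; exact (hlow _ (by omega)).ne'
      · rw [← val4_Y_v Γ v (val4_g Γ (j / 4)).u']; exact (hlow _ (by omega)).ne'
      · unfold val4_m
        field_simp
        ring
      · have : wi Γ nw j 0 = 2 * (j / 4) := rfl
        simp only [this]
        rw [if_pos (by omega), hY0]
      · have : wi Γ nw j 1 = 2 * (j / 4) + 1 := rfl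
        simp only [this]
        rw [if_pos (by omega), hY1]
      · have : wi Γ nw j 2 = 2 * Γ.length + (if (val4_g Γ (j / 4)).k then 1 else 0) := rfl
        simp only [this]
        rw [if_pos hc2, hY2]
      · have : wi Γ nw j 3 = 2 * Γ.length + 2 + (val4_g Γ (j / 4)).u := by
          simp [wi, hpart, hga]
        simp only [this]
        rw [if_pos (by omega), val4_Y_v]
      · have : wi Γ nw j 4 = 2 * Γ.length + 2 + (val4_g Γ (j / 4)).u' := by
          simp [wi, hpart, hga]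
        simp only [this]
        rw [if_pos (by omega), val4_Y_v]
      · have : wi Γ nw j 5 = 2 * Γ.length + 2 + nw := rfl
        simp only [this]
        rw [if_neg (by omega)]
    · refine val4_rel M (val4_m Γ v (j / 4)) (val4_n Γ.length (j / 4))
        (cen (val4_g Γ (j / 4)).k) (v (val4_g Γ (j / 4)).a) (v (val4_g Γ (j / 4)).a')
        ?_ ?_ ?_ ?_ ?_ ?_ _ ?_ ?_ ?_ ?_ ?_ ?_
      · rw [← hY0]; exact (hlow _ (by omega)).ne'
      · rw [← hY1]; exact (hlow _ (by omega)).ne'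
      · rw [← hY2]; exact (hlow _ hc2).ne'
      · rw [← val4_Y_v Γ v (val4_g Γ (j / 4)).a]; exact (hlow _ (by omega)).ne'
      · rw [← val4_Y_v Γ v (val4_g Γ (j / 4)).a']; exact (hlow _ (by omega)).ne'
      · have e3 : (cen (val4_g Γ (j / 4)).k - val4_m Γ v (j / 4)) *
            (v (val4_g Γ (j / 4)).u - cen (val4_g Γ (j / 4)).k) =
            (cen (val4_g Γ (j / 4)).k - val4_n Γ.length (j / 4)) *
            (v (val4_g Γ (j / 4)).u' - cen (val4_g Γ (j / 4)).k) := by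
          unfold val4_m
          field_simp
          ring
        apply mul_right_cancel₀ hp
        linear_combination (v (val4_g Γ (j / 4)).a - cen (val4_g Γ (j / 4)).k) * e3 -
          (cen (val4_g Γ (j / 4)).k - val4_n Γ.length (j / 4)) * e2
      · have : wi Γ nw j 0 = 2 * (j / 4) := rfl
        simp only [this]
        rw [if_pos (by omega), hY0]
      · have : wi Γ nw j 1 = 2 * (j / 4) + 1 := rfl
        simp only [this]
        rw [if_pos (by omega), hY1]
      · have : wi Γ nw j 2 = 2 * Γ.length + (if (val4_g Γ (j / 4)).k then 1 else 0) := rfl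
        simp only [this]
        rw [if_pos hc2, hY2]
      · have : wi Γ nw j 3 = 2 * Γ.length + 2 + (val4_g Γ (j / 4)).a := by
          simp [wi, hpart, hga]
        simp only [this]
        rw [if_pos (by omega), val4_Y_v]
      · have : wi Γ nw j 4 = 2 * Γ.length + 2 + (val4_g Γ (j / 4)).a' := by
          simp [wi, hpart, hga]
        simp only [this]
        rw [if_pos (by omega), val4_Y_v]
      · have : wi Γ nw j 5 = 2 * Γ.length + 2 + nw := rfl
        simp only [this]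
        rw [if_neg (by omega)]

end Pool.Agent.Helper54.S4
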